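import Pool.Agent.W682.TW.Stm

/-!
Project TW, piece TW-DIR: only one axis can be nearly parallel to a given vector.
-/

set_option autoImplicit false

open scoped BigOperators
open Pool.Agent.W682.TW

namespace Pool.Agent.W639.TW.Dir

/-- integer determinant -/
def kd (n : ℕ) (i k : Ix n) : ℤ := kv n i 0 * kv n k 1 - kv n i 1 * kv n k 0

theorem kd_symm (n : ℕ) (i k : Ix n) : kd n i k = - kd n k i := by
  unfold kd; ring

theorem kd_oc (n : ℕ) (u : Unit) (s : Fin (2 * n)) : kd n (.inl (.inl u)) (.inl (.inr s)) ≠ 0 := by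
  have h : kd n (.inl (.inl u)) (.inl (.inr s)) = -(2 * (n : ℤ) + 2) := by
    simp only [kd, kv, Matrix.cons_val_zero, Matrix.cons_val_one]; ring
  rw [h]; omega

theorem kd_oa (n : ℕ) (u : Unit) (i : Fin n) : kd n (.inl (.inl u)) (.inr (.inl i)) ≠ 0 := by
  have h : kd n (.inl (.inl u)) (.inr (.inl i)) = -1 := by
    simp only [kd, kv, Matrix.cons_val_zero, Matrix.cons_val_one]; ring
  rw [h]; omega

theorem kd_ob (n : ℕ) (u : Unit) (j : Fin n) : kd n (.inl (.inl u)) (.inr (.inr j)) ≠ 0 := by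
  have h : kd n (.inl (.inl u)) (.inr (.inr j)) = -(2 * (n : ℤ) + 1) := by
    simp only [kd, kv, Matrix.cons_val_zero, Matrix.cons_val_one]; ring
  rw [h]; omega

theorem kd_cc (n : ℕ) (s s' : Fin (2 * n)) (hne : s ≠ s') :
    kd n (.inl (.inr s)) (.inl (.inr s')) ≠ 0 := by
  have h : kd n (.inl (.inr s)) (.inl (.inr s')) = (2 * (n : ℤ) + 2) * ((s'.val : ℤ) - s.val) := by
    simp only [kd, kv, Matrix.cons_val_zero, Matrix.cons_val_one]; ring
  rw [h]
  refine mul_ne_zero (by omega) ?_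
  have : s.val ≠ s'.val := fun h => hne (Fin.ext h)
  omega

theorem kd_aa (n : ℕ) (s s' : Fin n) (hne : s ≠ s') :
    kd n (.inr (.inl s)) (.inr (.inl s')) ≠ 0 := by
  have h : kd n (.inr (.inl s)) (.inr (.inl s')) = ((s'.val : ℤ) - s.val) := by
    simp only [kd, kv, Matrix.cons_val_zero, Matrix.cons_val_one]; ring
  rw [h]
  have : s.val ≠ s'.val := fun h => hne (Fin.ext h)
  omega

theorem kd_bb (n : ℕ) (s s' : Fin n) (hne : s ≠ s') :
    kd n (.inr (.inr s)) (.inr (.inr s')) ≠ 0 := by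
  have h : kd n (.inr (.inr s)) (.inr (.inr s')) = (2 * (n : ℤ) + 1) * ((s'.val : ℤ) - s.val) := by
    simp only [kd, kv, Matrix.cons_val_zero, Matrix.cons_val_one]; ring
  rw [h]
  refine mul_ne_zero (by omega) ?_
  have : s.val ≠ s'.val := fun h => hne (Fin.ext h)
  omega

theorem kd_ca (n : ℕ) (s : Fin (2 * n)) (i : Fin n) :
    kd n (.inl (.inr s)) (.inr (.inl i)) ≠ 0 := by
  have h : kd n (.inl (.inr s)) (.inr (.inl i)) =
      (2 * (n : ℤ) + 2) * ((i.val : ℤ) + 1) - ((s.val : ℤ) + 2) := by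
    simp only [kd, kv, Matrix.cons_val_zero, Matrix.cons_val_one]; ring
  rw [h]
  have hs : (s.val : ℤ) < 2 * n := by have := s.isLt; omega
  have hi : (0 : ℤ) ≤ i.val := by omega
  have hn : (0 : ℤ) ≤ n := by omega
  have : (0 : ℤ) ≤ (2 * (n : ℤ) + 2) * (i.val : ℤ) := by positivity
  have h2 : (2 * (n : ℤ) + 2) * ((i.val : ℤ) + 1) = (2 * (n : ℤ) + 2) * (i.val : ℤ) + (2 * n + 2) := by
    ring
  rw [h2]
  omega

theorem kd_cb (n : ℕ) (s : Fin (2 * n)) (j : Fin n) :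
    kd n (.inl (.inr s)) (.inr (.inr j)) ≠ 0 := by
  have h : kd n (.inl (.inr s)) (.inr (.inr j)) =
      ((j.val : ℤ) + 1) - (2 * (n : ℤ) + 1) * ((s.val : ℤ) + 1 - j.val) := by
    simp only [kd, kv, Matrix.cons_val_zero, Matrix.cons_val_one]; ring
  rw [h]
  have hj : (j.val : ℤ) < n := by have := j.isLt; omega
  have hj0 : (0 : ℤ) ≤ j.val := by omega
  have hn : (0 : ℤ) ≤ n := by omega
  rcases le_or_gt ((s.val : ℤ) + 1 - j.val) 0 with h1 | h1
  · have : (2 * (n : ℤ) + 1) * ((s.val : ℤ) + 1 - j.val) ≤ 0 :=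
      mul_nonpos_of_nonneg_of_nonpos (by omega) h1
    omega
  · have : (2 * (n : ℤ) + 1) * 1 ≤ (2 * (n : ℤ) + 1) * ((s.val : ℤ) + 1 - j.val) :=
      mul_le_mul_of_nonneg_left (by omega) (by omega)
    omega

theorem kd_ab (n : ℕ) (i j : Fin n) :
    kd n (.inr (.inl i)) (.inr (.inr j)) ≠ 0 := by
  have h : kd n (.inr (.inl i)) (.inr (.inr j)) =
      ((j.val : ℤ) + 1) - (2 * (n : ℤ) + 1) * ((i.val : ℤ) + 1) := by
    simp only [kd, kv, Matrix.cons_val_zero, Matrix.cons_val_one]; ring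
  rw [h]
  have hj : (j.val : ℤ) < n := by have := j.isLt; omega
  have : (2 * (n : ℤ) + 1) * 1 ≤ (2 * (n : ℤ) + 1) * ((i.val : ℤ) + 1) :=
      mul_le_mul_of_nonneg_left (by omega) (by omega)
  omega

theorem kd_ne (n : ℕ) (i k : Ix n) (h : i ≠ k) : kd n i k ≠ 0 := by
  have hs : ∀ i k : Ix n, kd n i k ≠ 0 → kd n k i ≠ 0 := by
    intro i k h h'
    exact h (by rw [kd_symm, h', neg_zero])
  rcases i with (⟨⟩ | s) | (i | j) <;> rcases k with (⟨⟩ | s') | (i' | j')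
  · exact absurd rfl h
  · exact kd_oc n _ _
  · exact kd_oa n _ _
  · exact kd_ob n _ _
  · exact hs _ _ (kd_oc n _ _)
  · exact kd_cc n _ _ (fun e => h (by rw [e]))
  · exact kd_ca n _ _
  · exact kd_cb n _ _
  · exact hs _ _ (kd_oa n _ _)
  · exact hs _ _ (kd_ca n _ _)
  · exact kd_aa n _ _ (fun e => h (by rw [e]))
  · exact kd_ab n _ _
  · exact hs _ _ (kd_ob n _ _)
  · exact hs _ _ (kd_cb n _ _)
  · exact hs _ _ (kd_ab n _ _)
  · exact kd_bb n _ _ (fun e => h (by rw [e]))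

theorem dt_ge (n : ℕ) (i k : Ix n) (h : i ≠ k) : 1 ≤ |dt (kr n i) (kr n k)| := by
  have e : dt (kr n i) (kr n k) = ((kd n i k : ℤ) : ℝ) := by
    unfold dt kr kd; push_cast; ring
  rw [e]
  have := Int.one_le_abs (kd_ne n i k h)
  exact_mod_cast this

theorem main : S_DIR := by
  intro n
  set Kx : ℝ := ∑ ι : Ix n, (|kr n ι 0| + |kr n ι 1|) with hKx
  have hK : ∀ ι : Ix n, |kr n ι 0| + |kr n ι 1| ≤ Kx := by
    intro ι
    exact Finset.single_le_sum (f := fun ι : Ix n => |kr n ι 0| + |kr n ι 1|)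
      (fun _ _ => by positivity) (Finset.mem_univ ι)
  have hK0 : 0 ≤ Kx := Finset.sum_nonneg (fun _ _ => by positivity)
  refine ⟨Kx * (2 * Kx), by positivity, fun v => ?_⟩
  obtain ⟨ι₀, -, hmin⟩ := Finset.exists_min_image (Finset.univ : Finset (Ix n))
    (fun ι => |dt (kr n ι) v|) ⟨.inl (.inl ()), Finset.mem_univ _⟩
  refine ⟨ι₀, fun ι hι => ?_⟩
  have hm : |dt (kr n ι₀) v| ≤ |dt (kr n ι) v| := hmin ι (Finset.mem_univ _)
  have hD := dt_ge n ι ι₀ hι
  have hd0 : 0 ≤ |dt (kr n ι) v| := abs_nonneg _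
  have comp : ∀ l : Fin 2, |kr n ι l| ≤ Kx → |kr n ι₀ l| ≤ Kx →
      dt (kr n ι) (kr n ι₀) * v l = -dt (kr n ι₀) v * kr n ι l + dt (kr n ι) v * kr n ι₀ l →
      |v l| ≤ 2 * Kx * |dt (kr n ι) v| := by
    intro l h1 h2 e
    calc |v l| ≤ |dt (kr n ι) (kr n ι₀)| * |v l| := le_mul_of_one_le_left (abs_nonneg _) hD
      _ = |-dt (kr n ι₀) v * kr n ι l + dt (kr n ι) v * kr n ι₀ l| := by rw [← abs_mul, e]
      _ ≤ |dt (kr n ι₀) v| * |kr n ι l| + |dt (kr n ι) v| * |kr n ι₀ l| := by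
        refine (abs_add_le _ _).trans ?_
        rw [abs_mul, abs_mul, abs_neg]
      _ ≤ |dt (kr n ι) v| * Kx + |dt (kr n ι) v| * Kx :=
        add_le_add (mul_le_mul hm h1 (abs_nonneg _) hd0)
          (mul_le_mul_of_nonneg_left h2 hd0)
      _ = 2 * Kx * |dt (kr n ι) v| := by ring
  have a0 : ∀ κ : Ix n, |kr n κ 0| ≤ Kx := fun κ => by
    have := hK κ; have := abs_nonneg (kr n κ 1); linarith
  have a1 : ∀ κ : Ix n, |kr n κ 1| ≤ Kx := fun κ => by
    have := hK κ; have := abs_nonneg (kr n κ 0); linarith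
  have h0 := comp 0 (a0 ι) (a0 ι₀) (by unfold dt; ring)
  have h1 := comp 1 (a1 ι) (a1 ι₀) (by unfold dt; ring)
  calc |ip (kr n ι) v| ≤ |kr n ι 0| * |v 0| + |kr n ι 1| * |v 1| := by
        unfold ip
        refine (abs_add_le _ _).trans ?_
        rw [abs_mul, abs_mul]
    _ ≤ |kr n ι 0| * (2 * Kx * |dt (kr n ι) v|) + |kr n ι 1| * (2 * Kx * |dt (kr n ι) v|) :=
        add_le_add (mul_le_mul_of_nonneg_left h0 (abs_nonneg _))
          (mul_le_mul_of_nonneg_left h1 (abs_nonneg _))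
    _ = (|kr n ι 0| + |kr n ι 1|) * (2 * Kx * |dt (kr n ι) v|) := by ring
    _ ≤ Kx * (2 * Kx * |dt (kr n ι) v|) := mul_le_mul_of_nonneg_right (hK ι) (by positivity)
    _ = Kx * (2 * Kx) * |dt (kr n ι) v| := by ring

end Pool.Agent.W639.TW.Dir
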